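import Pool.Agent.Helper45.TC.MEnd

/-!
# MP_a426d9_al: symmetric algebras on representations of degree at most two are noetherian
-/

namespace Pool.Agent.Results.MP_a426d9_al.DegreeTwo

open Pool.Agent.Helper45.TCS

/-- For every finite length polynomial representation V of GL_∞ of degree at most two, the twisted
commutative algebra Sym(V) is noetherian. -/
theorem result {V : Type} [AddCommGroup V] [Module ℂ V] (ρ : Representation ℂ GLinf V)
    (h : IsDegTwo ρ) : SymNoetherian ρ := Pool.Agent.Helper45.TCT.degTwo ρ h

end Pool.Agent.Results.MP_a426d9_al.DegreeTwo
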